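import Pool.Agent.Work.MP_089002_mp.Family

/-!
# MP_089002_mp : the number of free parameters of self-dual solutions

A family of pairwise gauge-inequivalent degree `N` solutions, `N ≥ 2`, has at most `4 N - 3`
independent real parameters. The configurations, the self-dual equations, the degree and gauge
equivalence are defined in `Pool/Agent/Work/MP_089002_mp/Defs.lean`.
-/

open Set
open Pool.Agent.Work.MP_089002_mp

namespace Pool.Agent.Results.MP_089002_mp.ParameterCount

/-- `c` is a family of pairwise gauge-inequivalent degree `N` solutions with `k` real parameters: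
the parameter `t` ranges over a nonempty open set `T` of `ℝ^k`, every `c t` with `t ∈ T` is a smooth
finite-energy solution of degree `N`, the gauge-invariant component `φ₃` of `c t` at `x` depends
continuously on `(t, x)`, and different parameters give gauge-inequivalent solutions. -/
structure IsFamily (N k : ℕ) (T : Set (Fin k → ℝ)) (c : (Fin k → ℝ) → Config) : Prop where
  isOpen : IsOpen T
  nonempty : T.Nonempty
  solution : ∀ t ∈ T, (c t).IsSolution N
  continuous : ContinuousOn (fun p : (Fin k → ℝ) × ℂ => (c p.1).φ p.2 2) (T ×ˢ univ)
  inequivalent : ∀ s ∈ T, ∀ t ∈ T, GaugeEquiv (c s) (c t) → s = t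

/-- No family of pairwise gauge-inequivalent degree `N` solutions has more than `4 N - 3`
parameters. -/
theorem result (N : ℕ) (hN : 2 ≤ N) (k : ℕ) (T : Set (Fin k → ℝ)) (c : (Fin k → ℝ) → Config)
    (h : IsFamily N k T c) : k ≤ 4 * N - 3 := by
  by_contra hk
  push Not at hk
  obtain ⟨s, hs, t, ht, hne, hst⟩ :=
    no_big_family hN hk h.isOpen h.nonempty c h.solution h.continuous
  exact hne (h.inequivalent s hs t ht hst)

end Pool.Agent.Results.MP_089002_mp.ParameterCount
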